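import Pool.Agent.Lib.P23G.Fam

/-!
# Module P23G.Cpt: stable solvability, uniformly on compact sets of tuples

PROOF. `SolW.mono`: for `μ` on `W'` apply the hypothesis to `μ.comp I` and compose with `I`.
`exists_embed`: extension by zero, `w ↦ fun j => if h : j < N then w ⟨j, h⟩ else 0`; the norm by
`EuclideanSpace`/`PiLp.norm_eq_of_L2` and a sum over `Fin N'` reindexed along `Fin.castLE`. `cpt`: every `z ∈ K`
has the neighbourhood `{z' | ∀ i, ‖z' i - z i‖ < δ_z}`; finite subcover, `N` the sum (or sup) of the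
finitely many `N_z`, `δ` the minimum of the `δ_z` (and `1` if the cover is empty).
-/

set_option autoImplicit false

namespace P23G

theorem SolW.mono {W W' : Type*} [NormedAddCommGroup W] [NormedSpace ℝ W] [NormedAddCommGroup W']
    [NormedSpace ℝ W'] (I : W →ₗᵢ[ℝ] W') {δ δ' : ℝ} (hδ : δ' ≤ δ) {n k : ℕ}
    {z : Fin k → EuclideanSpace ℝ (Fin n)} (h : SolW W δ z) : SolW W' δ' z := by
  intro μ hμ
  obtain ⟨S, hS⟩ := h (μ.comp I.toLinearMap) (by
    intro w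
    have h1 := hμ (I w)
    rw [I.norm_map] at h1
    refine ⟨h1.1, h1.2.trans ?_⟩
    exact mul_le_mul_of_nonneg_right (by linarith) (norm_nonneg w))
  exact ⟨I.toLinearMap ∘ₗ S, fun i => hS i⟩

/-- extension by zero -/
private noncomputable def CptExt (Y : Type*) [NormedAddCommGroup Y] [NormedSpace ℝ Y] (N m : ℕ) :
    PiLp 2 (fun _ : Fin N => Y) →ₗ[ℝ] PiLp 2 (fun _ : Fin (N + m) => Y) where
  toFun w := WithLp.toLp 2 (fun j : Fin (N + m) => if h : (j : ℕ) < N then w ⟨j, h⟩ else 0)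
  map_add' v w := by
    ext j
    by_cases h : (j : ℕ) < N
    · simp [h]
    · simp [h]
  map_smul' c w := by
    ext j
    by_cases h : (j : ℕ) < N
    · simp [h]
    · simp [h]

theorem exists_embed (Y : Type*) [NormedAddCommGroup Y] [NormedSpace ℝ Y] {N N' : ℕ}
    (h : N ≤ N') :
    Nonempty (PiLp 2 (fun _ : Fin N => Y) →ₗᵢ[ℝ] PiLp 2 (fun _ : Fin N' => Y)) := by
  obtain ⟨m, rfl⟩ := Nat.exists_eq_add_of_le h
  refine ⟨⟨CptExt Y N m, fun w => ?_⟩⟩
  rw [PiLp.norm_eq_of_L2, PiLp.norm_eq_of_L2, Fin.sum_univ_add]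
  congr 1
  have h1 : ∀ i : Fin N, ‖(CptExt Y N m w) (Fin.castAdd m i)‖ ^ 2 = ‖w i‖ ^ 2 := by
    intro i
    have : (CptExt Y N m w) (Fin.castAdd m i) = w i := by
      simp [CptExt]
    rw [this]
  have h2 : ∀ i : Fin m, ‖(CptExt Y N m w) (Fin.natAdd N i)‖ ^ 2 = 0 := by
    intro i
    have : (CptExt Y N m w) (Fin.natAdd N i) = 0 := by
      simp [CptExt]
    rw [this]
    simp
  rw [Finset.sum_congr rfl fun i _ => h1 i, Finset.sum_congr rfl fun i _ => h2 i]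
  simp

theorem cpt {Y : Type*} [NormedAddCommGroup Y] [NormedSpace ℝ Y] (hY : NonHilb Y) {n k : ℕ}
    {K : Set (Fin k → EuclideanSpace ℝ (Fin n))} (hK : IsCompact K) (hKT : K ⊆ Tup n k) :
    ∃ (N : ℕ) (δ : ℝ), 0 < δ ∧ ∀ z ∈ K, SolW (PiLp 2 (fun _ : Fin N => Y)) δ z := by
  refine hK.induction_on (p := fun s => ∃ (N : ℕ) (δ : ℝ), 0 < δ ∧
    ∀ z ∈ s, SolW (PiLp 2 (fun _ : Fin N => Y)) δ z) ?_ ?_ ?_ ?_
  · exact ⟨0, 1, one_pos, fun z hz => absurd hz (Set.notMem_empty z)⟩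
  · rintro s t hst ⟨N, δ, hδ, h⟩
    exact ⟨N, δ, hδ, fun z hz => h z (hst hz)⟩
  · rintro s t ⟨N, δ, hδ, h⟩ ⟨N', δ', hδ', h'⟩
    obtain ⟨I⟩ := exists_embed Y (le_max_left N N')
    obtain ⟨I'⟩ := exists_embed Y (le_max_right N N')
    refine ⟨max N N', min δ δ', lt_min hδ hδ', ?_⟩
    rintro z (hz | hz)
    · exact SolW.mono I (min_le_left _ _) (h z hz)
    · exact SolW.mono I' (min_le_right _ _) (h' z hz)
  · intro z hz
    obtain ⟨N, δ, hδ, h⟩ := fam hY (hKT hz)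
    refine ⟨Metric.ball z δ, mem_nhdsWithin_of_mem_nhds (Metric.ball_mem_nhds z hδ), N, δ, hδ, ?_⟩
    intro z' hz'
    refine h z' fun i => ?_
    rw [← dist_eq_norm]
    exact lt_of_le_of_lt (dist_le_pi_dist z' z i) hz'

end P23G
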