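import Mathlib

/-!
# Generic norms (MP_23d34e): tuples of directions and stable solvability

`Tup n k`: tuples of `k` nonzero vectors of `ℝⁿ`, no two of them proportional. `SolW W δ z`: every
seminorm `μ` on `W` with `‖w‖ ≤ μ w ≤ (1 + δ) ‖w‖` has a linear map `S : ℝⁿ → W` with
`μ (S (z i)) = ‖z i‖` for all `i`. `NonHilb Y`: the parallelogram law fails in `Y`.
-/

set_option autoImplicit false

namespace P23G

/-- Tuples of `k` nonzero vectors of `ℝⁿ`, no two of them proportional. -/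
def Tup (n k : ℕ) : Set (Fin k → EuclideanSpace ℝ (Fin n)) :=
  {z | (∀ i, z i ≠ 0) ∧ ∀ i j, i ≠ j → ∀ c : ℝ, z i ≠ c • z j}

/-- Every seminorm on `W` which is close to the norm of `W` admits a linear map with prescribed
values at the vectors `z i`. -/
def SolW (W : Type*) [NormedAddCommGroup W] [NormedSpace ℝ W] (δ : ℝ) {n k : ℕ}
    (z : Fin k → EuclideanSpace ℝ (Fin n)) : Prop :=
  ∀ μ : Seminorm ℝ W, (∀ w, ‖w‖ ≤ μ w ∧ μ w ≤ (1 + δ) * ‖w‖) →
    ∃ S : EuclideanSpace ℝ (Fin n) →ₗ[ℝ] W, ∀ i, μ (S (z i)) = ‖z i‖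

/-- The parallelogram law fails in `Y`. -/
def NonHilb (Y : Type*) [NormedAddCommGroup Y] [NormedSpace ℝ Y] : Prop :=
  ∃ x y : Y, ‖x + y‖ ^ 2 + ‖x - y‖ ^ 2 ≠ 2 * (‖x‖ ^ 2 + ‖y‖ ^ 2)

end P23G
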