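import Pool.Agent.Lib.P23G.Defs
import Pool.Agent.Lib.P23d34e.EmbedY

/-!
# Module P23G.Fam: stable solvability in `ℓ₂^N(Y)`
-/

set_option autoImplicit false

open Topology Filter Set Metric
open scoped ENNReal

namespace P23G

/-- A seminorm dominated by the norm is continuous. -/
lemma cont_seminorm {W : Type*} [NormedAddCommGroup W] [NormedSpace ℝ W] (μ : Seminorm ℝ W)
    {c : ℝ} (h : ∀ w, μ w ≤ c * ‖w‖) : Continuous μ := by
  apply LipschitzWith.continuous (K := Real.toNNReal c)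
  apply LipschitzWith.of_dist_le_mul
  intro a b
  rw [Real.dist_eq, dist_eq_norm]
  refine (abs_sub_map_le_sub μ a b).trans ((h _).trans ?_)
  exact mul_le_mul_of_nonneg_right (Real.le_coe_toNNReal c) (norm_nonneg _)

/-- A pointwise continuous family of linear maps on a compact set is uniformly bounded. -/
lemma bound_of_cont {E F : Type*} [NormedAddCommGroup E] [InnerProductSpace ℝ E]
    [FiniteDimensional ℝ E] [NormedAddCommGroup F] [NormedSpace ℝ F] {U : Type*}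
    [TopologicalSpace U] {K : Set U} (hK : IsCompact K) (T : U → E →ₗ[ℝ] F)
    (hT : ∀ v, ContinuousOn (fun u => T u v) K) :
    ∃ C : ℝ, 0 ≤ C ∧ ∀ u ∈ K, ∀ v, ‖T u v‖ ≤ C * ‖v‖ := by
  let b := stdOrthonormalBasis ℝ E
  choose C hC using fun j => hK.exists_bound_of_continuousOn (hT (b j))
  refine ⟨∑ j, |C j|, Finset.sum_nonneg fun j _ => abs_nonneg _, fun u hu v => ?_⟩
  have h1 : T u v = ∑ j, (b.repr v j) • T u (b j) := by
    conv_lhs => rw [← b.sum_repr v]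
    rw [map_sum]
    simp
  rw [h1]
  refine (norm_sum_le _ _).trans ?_
  rw [Finset.sum_mul]
  apply Finset.sum_le_sum
  intro j _
  rw [norm_smul]
  have h2 : ‖b.repr v j‖ ≤ ‖v‖ := by
    have := PiLp.norm_apply_le (b.repr v) j
    rwa [b.repr.norm_map] at this
  have h3 : ‖T u (b j)‖ ≤ |C j| := (hC j u hu).trans (le_abs_self _)
  calc ‖b.repr v j‖ * ‖T u (b j)‖ ≤ ‖v‖ * |C j| := mul_le_mul h2 h3 (norm_nonneg _) (norm_nonneg _)
    _ = |C j| * ‖v‖ := mul_comm _ _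

/-- The family of maps with prescribed norms on `D`. -/
lemma exists_family {E : Type*} [NormedAddCommGroup E] [InnerProductSpace ℝ E]
    [FiniteDimensional ℝ E] {D : Finset E} {Y : Type*} [NormedAddCommGroup Y] [NormedSpace ℝ Y]
    (hY : NonHilb Y) (h0 : ∀ v ∈ D, v ≠ 0)
    (hD : ∀ v ∈ D, ∀ w ∈ D, v ≠ w → ∀ c : ℝ, v ≠ c • w) :
    ∃ (N : ℕ) (r : ℝ) (T : EuclideanSpace ℝ D → E →ₗ[ℝ] PiLp 2 (fun _ : Fin N => Y)),
      0 < r ∧ (∀ v, ContinuousOn (fun u => T u v) (closedBall 0 r)) ∧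
      (∀ u ∈ closedBall (0 : EuclideanSpace ℝ D) r, ∀ d : D, ‖T u d‖ ^ 2 = ‖(d : E)‖ ^ 2 + u d) := by
  classical
  obtain ⟨x, y, hxy⟩ : ∃ x y : Y, ¬ ∃ P : Polynomial ℝ, ∀ t : ℝ, ‖x + t • y‖ ^ (2 : ℝ) = P.eval t := by
    rcases Pool.Agent.Lib.P23d34e.flexible_two hY with h | ⟨_, x, y, h⟩
    · exact absurd h.1 (by norm_num)
    · refine ⟨x, y, ?_⟩
      rw [ENNReal.toReal_ofNat] at h
      exact h
  obtain ⟨G, a, ha, hrep, hspan⟩ := Pool.Agent.Lib.P23d34e.exists_rep two_pos hxy h0 hD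
  -- the map from coefficients to values
  let L : (G → ℝ) →ₗ[ℝ] (D → ℝ) :=
    Fintype.linearCombination ℝ fun ξ : G => Pool.Agent.Lib.P23d34e.kvec 2 x y D ξ
  have hL : ∀ c, L c = ∑ ξ : G, c ξ • Pool.Agent.Lib.P23d34e.kvec 2 x y D ξ := fun c => rfl
  have hsurj : LinearMap.range L = ⊤ := by
    rw [Fintype.range_linearCombination, ← hspan]
    congr 1
    ext x
    simp
  obtain ⟨R, hR⟩ := L.exists_rightInverse_of_surjective hsurj
  have hRc : Continuous fun u : EuclideanSpace ℝ D => R (WithLp.ofLp u) :=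
    R.continuous_of_finiteDimensional.comp (PiLp.continuous_ofLp 2 _)
  let c : EuclideanSpace ℝ D → G → ℝ := fun u ξ => a ξ + R (WithLp.ofLp u) ξ
  have hcc : ∀ ξ, Continuous fun u => c u ξ := by
    intro ξ
    exact continuous_const.add ((continuous_apply ξ).comp hRc)
  have hc0 : c 0 = fun ξ : G => a ξ := by
    ext ξ
    simp [c]
  obtain ⟨r, hr, hrc⟩ : ∃ r : ℝ, 0 < r ∧ ∀ u ∈ closedBall (0 : EuclideanSpace ℝ D) r, ∀ ξ,
      0 < c u ξ := by
    have h1 : ∀ᶠ u in 𝓝 (0 : EuclideanSpace ℝ D), ∀ ξ, 0 < c u ξ := by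
      rw [Filter.eventually_all]
      intro ξ
      have h2 := (hcc ξ).tendsto 0
      apply h2.eventually (lt_mem_nhds _)
      rw [hc0]
      exact ha ξ ξ.2
    obtain ⟨r, hr, h3⟩ := Metric.nhds_basis_closedBall.eventually_iff.1 h1
    exact ⟨r, hr, fun u hu => h3 hu⟩
  have hLc : ∀ u : EuclideanSpace ℝ D,
      L (c u) = Pool.Agent.Lib.P23d34e.tvec 2 D + WithLp.ofLp u := by
    intro u
    have h1 : c u = (fun ξ : G => a ξ) + R (WithLp.ofLp u) := rfl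
    rw [h1, map_add]
    have h2 : L (R (WithLp.ofLp u)) = WithLp.ofLp u := by
      have := LinearMap.congr_fun hR (WithLp.ofLp u)
      simpa using this
    rw [h2, hL, ← hrep]
    congr 1
    exact Finset.sum_coe_sort G fun ξ => a ξ • Pool.Agent.Lib.P23d34e.kvec 2 x y D ξ
  -- the family of maps
  let T : EuclideanSpace ℝ D → E →ₗ[ℝ] PiLp 2 (fun _ : G => Y) := fun u =>
    ((WithLp.linearEquiv 2 ℝ (G → Y)).symm : (G → Y) →ₗ[ℝ] PiLp 2 (fun _ : G => Y)) ∘ₗ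
      LinearMap.pi fun ξ : G => (Real.sqrt (c u ξ)) • (Pool.Agent.Lib.P23d34e.sop x y (ξ : E × E))
  have hTa : ∀ u v ξ, (T u v) ξ =
      Real.sqrt (c u ξ) • Pool.Agent.Lib.P23d34e.sop x y (ξ : E × E) v := fun u v ξ => rfl
  let e := LinearIsometryEquiv.piLpCongrLeft 2 ℝ Y (Fintype.equivFin G)
  refine ⟨Fintype.card G, r,
    fun u => (e.toLinearEquiv : PiLp 2 (fun _ : G => Y) →ₗ[ℝ] _) ∘ₗ T u, hr, ?_, ?_⟩
  · intro v
    have h1 : ContinuousOn (fun u => T u v) (closedBall 0 r) := by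
      have h1 : (fun u => T u v) = fun u => WithLp.toLp 2 fun ξ : G =>
          Real.sqrt (c u ξ) • Pool.Agent.Lib.P23d34e.sop x y (ξ : E × E) v := rfl
      rw [h1]
      apply (PiLp.continuous_toLp 2 _).comp_continuousOn
      apply continuousOn_pi.2
      intro ξ
      exact ((hcc ξ).sqrt.continuousOn).smul continuousOn_const
    exact e.continuous.comp_continuousOn h1
  · intro u hu d
    have h5 : ‖e (T u d)‖ = ‖T u d‖ := e.norm_map _
    have h6 : ((e.toLinearEquiv : PiLp 2 (fun _ : G => Y) →ₗ[ℝ] _) ∘ₗ T u) d = e (T u d) := rfl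
    rw [h6, h5, PiLp.norm_sq_eq_of_L2]
    have h1 : ∀ ξ : G, ‖(T u d) ξ‖ ^ 2 = c u ξ * Pool.Agent.Lib.P23d34e.kvec 2 x y D ξ d := by
      intro ξ
      rw [hTa, norm_smul, mul_pow, Real.norm_eq_abs, sq_abs, Real.sq_sqrt (hrc u hu ξ).le,
        ← Real.rpow_two]
      rfl
    rw [Finset.sum_congr rfl fun ξ _ => h1 ξ]
    have h2 := congrFun (hLc u) d
    rw [hL, Finset.sum_apply] at h2
    have h3 : (Pool.Agent.Lib.P23d34e.tvec 2 D + WithLp.ofLp u) d = ‖(d : E)‖ ^ 2 + u d := by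
      rw [← Real.rpow_two]
      rfl
    rw [h3] at h2
    rw [← h2]
    rfl

/-- stable solvability from a family -/
lemma solve_of_family {E : Type*} [NormedAddCommGroup E] [InnerProductSpace ℝ E]
    [FiniteDimensional ℝ E] {D : Finset E} {W : Type*} [NormedAddCommGroup W] [NormedSpace ℝ W]
    {r : ℝ} (hr : 0 < r) (T : EuclideanSpace ℝ D → E →ₗ[ℝ] W)
    (hT : ∀ v, ContinuousOn (fun u => T u v) (closedBall 0 r))
    (hTn : ∀ u ∈ closedBall (0 : EuclideanSpace ℝ D) r, ∀ d : D,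
      ‖T u d‖ ^ 2 = ‖(d : E)‖ ^ 2 + u d) :
    ∃ δ : ℝ, 0 < δ ∧ ∀ z' : D → E, (∀ d, ‖z' d - d‖ < δ) →
      ∀ μ : Seminorm ℝ W, (∀ w, ‖w‖ ≤ μ w ∧ μ w ≤ (1 + δ) * ‖w‖) →
        ∃ S : E →ₗ[ℝ] W, ∀ d, μ (S (z' d)) = ‖z' d‖ := by
  classical
  obtain ⟨C, hC0, hC⟩ := bound_of_cont (isCompact_closedBall (0 : EuclideanSpace ℝ D) r) T hT
  obtain ⟨M, hM0, hM⟩ : ∃ M : ℝ, 0 ≤ M ∧ ∀ d : D, ‖(d : E)‖ ≤ M := by
    refine ⟨∑ d : D, ‖(d : E)‖, Finset.sum_nonneg fun d _ => norm_nonneg _, fun d => ?_⟩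
    exact Finset.single_le_sum (f := fun d : D => ‖(d : E)‖) (fun d _ => norm_nonneg _)
      (Finset.mem_univ d)
  obtain ⟨η, hη0, hη⟩ : ∃ η : ℝ, 0 < η ∧ Real.sqrt (Fintype.card D) * η ≤ r := by
    refine ⟨r / (Real.sqrt (Fintype.card D) + 1), by positivity, ?_⟩
    rw [mul_div_assoc', div_le_iff₀ (by positivity)]
    nlinarith [Real.sqrt_nonneg (Fintype.card D : ℝ)]
  set K : ℝ := C * (M + 2) * (2 * (C * (M + 1)) + C * M) + (2 * M + 1) with hK
  have hK0 : 0 < K := by positivity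
  obtain ⟨δ, hδ0, hδ1, hδK⟩ : ∃ δ : ℝ, 0 < δ ∧ δ ≤ 1 ∧ δ * K ≤ η := by
    refine ⟨min 1 (η / K), lt_min one_pos (by positivity), min_le_left _ _, ?_⟩
    calc min 1 (η / K) * K ≤ η / K * K := mul_le_mul_of_nonneg_right (min_le_right _ _) hK0.le
      _ = η := div_mul_cancel₀ _ hK0.ne'
  refine ⟨δ, hδ0, fun z' hz' μ hμ => ?_⟩
  have hμc : Continuous μ := cont_seminorm μ fun w => (hμ w).2
  obtain ⟨u, hu, hfix⟩ := Pool.Agent.Lib.P23d34e.exists_zero hr hη0.le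
    (fun d : D => ‖(d : E)‖ ^ 2)
    (fun u d => μ (T u (z' d)) ^ 2 + ‖(d : E)‖ ^ 2 - ‖z' d‖ ^ 2) (by
      apply continuousOn_pi.2
      intro d
      have h1 : ContinuousOn (fun u => μ (T u (z' d))) (closedBall 0 r) :=
        hμc.comp_continuousOn (hT (z' d))
      exact ((h1.pow 2).add continuousOn_const).sub continuousOn_const) hη (by
      intro u hu d
      beta_reduce
      have hzd : ‖z' d‖ ≤ M + 1 := by
        have h1 : ‖z' d‖ ≤ ‖z' d - d‖ + ‖(d : E)‖ := by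
          have := norm_add_le (z' d - d) (d : E)
          rwa [sub_add_cancel] at this
        have h2 := hz' d
        have h3 := hM d
        linarith
      have hw : ‖T u (z' d)‖ ≤ C * (M + 1) :=
        (hC u hu _).trans (mul_le_mul_of_nonneg_left hzd hC0)
      have hd : ‖T u (d : E)‖ ≤ C * M :=
        (hC u hu _).trans (mul_le_mul_of_nonneg_left (hM d) hC0)
      have hdiff : |‖T u (z' d)‖ - ‖T u (d : E)‖| ≤ C * δ := by
        refine (abs_norm_sub_norm_le _ _).trans ?_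
        rw [← map_sub]
        exact (hC u hu _).trans (mul_le_mul_of_nonneg_left (hz' d).le hC0)
      have hμw := hμ (T u (z' d))
      have hm1 : |μ (T u (z' d)) - ‖T u (z' d)‖| ≤ δ * (C * (M + 1)) := by
        rw [abs_of_nonneg (by linarith [hμw.1])]
        have : δ * ‖T u (z' d)‖ ≤ δ * (C * (M + 1)) := mul_le_mul_of_nonneg_left hw hδ0.le
        linarith [hμw.2]
      have hm2 : |μ (T u (z' d)) - ‖T u (d : E)‖| ≤ δ * (C * (M + 2)) := by
        have h1 := abs_sub_le (μ (T u (z' d))) ‖T u (z' d)‖ ‖T u (d : E)‖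
        have h2 : δ * (C * (M + 1)) + C * δ = δ * (C * (M + 2)) := by ring
        linarith
      have hsum : |μ (T u (z' d)) + ‖T u (d : E)‖| ≤ 2 * (C * (M + 1)) + C * M := by
        rw [abs_of_nonneg (by have := apply_nonneg μ (T u (z' d)); positivity)]
        have h1 : (1 + δ) * ‖T u (z' d)‖ ≤ 2 * (C * (M + 1)) :=
          mul_le_mul (by linarith) hw (norm_nonneg _) (by norm_num)
        linarith [hμw.2]
      have hsq : |μ (T u (z' d)) ^ 2 - ‖T u (d : E)‖ ^ 2| ≤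
          δ * (C * (M + 2)) * (2 * (C * (M + 1)) + C * M) := by
        have h1 : μ (T u (z' d)) ^ 2 - ‖T u (d : E)‖ ^ 2 =
            (μ (T u (z' d)) - ‖T u (d : E)‖) * (μ (T u (z' d)) + ‖T u (d : E)‖) := by ring
        rw [h1, abs_mul]
        exact mul_le_mul hm2 hsum (abs_nonneg _) (by positivity)
      have hz2 : |‖z' d‖ ^ 2 - ‖(d : E)‖ ^ 2| ≤ δ * (2 * M + 1) := by
        have h1 : ‖z' d‖ ^ 2 - ‖(d : E)‖ ^ 2 =
            (‖z' d‖ - ‖(d : E)‖) * (‖z' d‖ + ‖(d : E)‖) := by ring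
        rw [h1, abs_mul]
        have h2 : |‖z' d‖ - ‖(d : E)‖| ≤ δ := (abs_norm_sub_norm_le _ _).trans (hz' d).le
        have h3 : |‖z' d‖ + ‖(d : E)‖| ≤ 2 * M + 1 := by
          rw [abs_of_nonneg (by positivity)]
          linarith [hM d]
        exact mul_le_mul h2 h3 (abs_nonneg _) hδ0.le
      have hrew : ‖(d : E)‖ ^ 2 + u d - (μ (T u (z' d)) ^ 2 + ‖(d : E)‖ ^ 2 - ‖z' d‖ ^ 2) =
          -(μ (T u (z' d)) ^ 2 - ‖T u (d : E)‖ ^ 2) + (‖z' d‖ ^ 2 - ‖(d : E)‖ ^ 2) := by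
        rw [hTn u hu d]
        ring
      rw [hrew]
      refine (abs_add_le _ _).trans ?_
      rw [abs_neg]
      have : δ * (C * (M + 2)) * (2 * (C * (M + 1)) + C * M) + δ * (2 * M + 1) = δ * K := by
        rw [hK]; ring
      linarith)
  refine ⟨T u, fun d => ?_⟩
  have h1 : μ (T u (z' d)) ^ 2 + ‖(d : E)‖ ^ 2 - ‖z' d‖ ^ 2 = ‖(d : E)‖ ^ 2 := hfix d
  have h2 : μ (T u (z' d)) ^ 2 = ‖z' d‖ ^ 2 := by linarith
  exact (pow_left_inj₀ (apply_nonneg μ _) (norm_nonneg _) two_ne_zero).1 h2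

theorem fam {Y : Type*} [NormedAddCommGroup Y] [NormedSpace ℝ Y] (hY : NonHilb Y) {n k : ℕ}
    {z : Fin k → EuclideanSpace ℝ (Fin n)} (hz : z ∈ Tup n k) :
    ∃ (N : ℕ) (δ : ℝ), 0 < δ ∧ ∀ z' : Fin k → EuclideanSpace ℝ (Fin n),
      (∀ i, ‖z' i - z i‖ < δ) → SolW (PiLp 2 (fun _ : Fin N => Y)) δ z' := by
  classical
  obtain ⟨hz0, hzc⟩ := hz
  have hinj : Function.Injective z := by
    intro i j hij
    by_contra hne
    exact hzc i j hne 1 (by rw [one_smul, hij])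
  let D : Finset (EuclideanSpace ℝ (Fin n)) := Finset.univ.image z
  have hDm : ∀ i, z i ∈ D := fun i => Finset.mem_image_of_mem z (Finset.mem_univ i)
  have h0 : ∀ v ∈ D, v ≠ 0 := by
    intro v hv
    obtain ⟨i, _, rfl⟩ := Finset.mem_image.1 hv
    exact hz0 i
  have hD : ∀ v ∈ D, ∀ w ∈ D, v ≠ w → ∀ c : ℝ, v ≠ c • w := by
    intro v hv w hw hvw
    obtain ⟨i, _, rfl⟩ := Finset.mem_image.1 hv
    obtain ⟨j, _, rfl⟩ := Finset.mem_image.1 hw
    exact hzc i j fun h => hvw (by rw [h])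
  obtain ⟨N, r, T, hr, hT, hTn⟩ := exists_family hY h0 hD
  obtain ⟨δ, hδ, hsol⟩ := solve_of_family hr T hT hTn
  have hex : ∀ d : D, ∃ i, z i = d := by
    intro d
    obtain ⟨i, _, hi⟩ := Finset.mem_image.1 d.2
    exact ⟨i, hi⟩
  choose s hs using hex
  refine ⟨N, δ, hδ, fun z' hz' μ hμ => ?_⟩
  obtain ⟨S, hS⟩ := hsol (fun d => z' (s d)) (fun d => by
    have := hz' (s d)
    rwa [hs d] at this) μ hμ
  refine ⟨S, fun i => ?_⟩
  have h1 : s ⟨z i, hDm i⟩ = i := hinj (hs ⟨z i, hDm i⟩)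
  have h2 := hS ⟨z i, hDm i⟩
  rw [h1] at h2
  exact h2

end P23G
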