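import Pool.Agent.Lib.P23G.Defs
import Pool.Agent.Lib.P23F.NetRel

set_option autoImplicit false

namespace P23G

/-- The inf-convolution seminorm. -/
theorem renorm_aux {X : Type*} [AddCommGroup X] [Module ℝ X]
    (ν : Seminorm ℝ X) {W : Type*} [NormedAddCommGroup W]
    [NormedSpace ℝ W] {η : ℝ} (hη : 0 < η) (J : W →ₗ[ℝ] X)
    (hJ1 : ∀ w, ‖w‖ ≤ (1 + η) * ν (J w)) (hJ2 : ∀ w, ν (J w) ≤ (1 + η) * ‖w‖) :
    ∃ ν' : Seminorm ℝ X,
      (∀ x, ν x ≤ (1 + η) * ν' x ∧ ν' x ≤ (1 + η) * ν x) ∧ ∀ w, ν' (J w) = ‖w‖ := by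
  set g : X → W → ℝ := fun x w => (1 + η) * ν (x - J w) + ‖w‖ with hg
  have h1 : 0 ≤ 1 + η := by linarith
  have g0 : ∀ x w, 0 ≤ g x w := fun x w =>
    add_nonneg (mul_nonneg h1 (apply_nonneg ν _)) (norm_nonneg w)
  have bdd : ∀ x, BddBelow (Set.range (g x)) := fun x => ⟨0, by
    rintro _ ⟨w, rfl⟩
    exact g0 x w⟩
  set f : X → ℝ := fun x => ⨅ w : W, g x w with hf
  have fle : ∀ x w, f x ≤ g x w := fun x w => ciInf_le (bdd x) w
  have f0 : f 0 = 0 := by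
    apply le_antisymm
    · have := fle 0 0
      simpa [hg] using this
    · exact le_ciInf fun w => g0 0 w
  have fadd : ∀ x y, f (x + y) ≤ f x + f y := by
    intro x y
    refine le_ciInf_add_ciInf fun w w' => ?_
    refine (fle (x + y) (w + w')).trans ?_
    simp only [hg]
    have e : x + y - J (w + w') = (x - J w) + (y - J w') := by
      rw [map_add]; abel
    rw [e]
    have h2 := map_add_le_add ν (x - J w) (y - J w')
    have h3 := norm_add_le w w'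
    have h4 := mul_le_mul_of_nonneg_left h2 h1
    linarith
  have fsmul : ∀ (r : ℝ) (x : X), f (r • x) ≤ ‖r‖ * f x := by
    intro r x
    simp only [hf]
    rw [Real.mul_iInf_of_nonneg (norm_nonneg r)]
    refine le_ciInf fun w => ?_
    refine (fle (r • x) (r • w)).trans (le_of_eq ?_)
    simp only [hg]
    have e : r • x - J (r • w) = r • (x - J w) := by
      rw [map_smul, smul_sub]
    rw [e, map_smul_eq_mul, norm_smul]
    ring
  refine ⟨Seminorm.ofSMulLE f f0 fadd fsmul, ?_, ?_⟩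
  · intro x
    constructor
    · show ν x ≤ (1 + η) * f x
      simp only [hf]
      rw [Real.mul_iInf_of_nonneg h1]
      refine le_ciInf fun w => ?_
      simp only [hg]
      have h2 : ν x ≤ ν (x - J w) + ν (J w) := by
        have := map_add_le_add ν (x - J w) (J w)
        rwa [sub_add_cancel] at this
      have h3 := hJ2 w
      have h4 : 0 ≤ ν (x - J w) := apply_nonneg ν _
      nlinarith [mul_nonneg hη.le h4, mul_nonneg (mul_nonneg hη.le hη.le) h4]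
    · show f x ≤ (1 + η) * ν x
      have := fle x 0
      simpa [hg] using this
  · intro w0
    show f (J w0) = ‖w0‖
    apply le_antisymm
    · have := fle (J w0) w0
      simpa [hg] using this
    · refine le_ciInf fun w => ?_
      simp only [hg]
      have h2 := hJ1 (w0 - w)
      rw [map_sub] at h2
      have h3 : ‖w0‖ ≤ ‖w0 - w‖ + ‖w‖ := by
        have := norm_add_le (w0 - w) w
        rwa [sub_add_cancel] at this
      linarith

theorem dvor {X : Type*} [AddCommGroup X] [Module ℝ X] (hX : ¬ FiniteDimensional ℝ X)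
    (ν : Seminorm ℝ X) (hν : ∀ x, ν x = 0 → x = 0) (d : ℕ) {η : ℝ} (hη : 0 < η) :
    ∃ T : EuclideanSpace ℝ (Fin d) →ₗ[ℝ] X, ∀ y, ‖y‖ ≤ ν (T y) ∧ ν (T y) ≤ (1 + η) * ‖y‖ := by
  let an : AddGroupNorm X :=
    { toFun := ν
      map_zero' := map_zero ν
      add_le' := map_add_le_add ν
      neg' := map_neg_eq_map ν
      eq_zero_of_map_eq_zero' := hν }
  let _ : NormedAddCommGroup X := an.toNormedAddCommGroup
  have hn : ∀ x : X, ‖x‖ = ν x := fun x => rfl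
  let _ : NormedSpace ℝ X :=
    { (inferInstance : Module ℝ X) with
      norm_smul_le := fun c x => by
        rw [hn, hn, map_smul_eq_mul] }
  set ε : ℝ := min (1 / 2) (η / 4) with hε
  have hε0 : 0 < ε := lt_min (by norm_num) (by linarith)
  have hε1 : ε ≤ 1 / 2 := min_le_left _ _
  have hε2 : ε ≤ η / 4 := min_le_right _ _
  obtain ⟨T, -, hT⟩ := P23F.relDvor (X := X) hX ∅ d 1 ε hε0
  have hT2 : ∀ y : EuclideanSpace ℝ (Fin d), |ν (T y) - ‖y‖| ≤ ε * ‖y‖ := by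
    intro y
    by_cases hy : y = 0
    · rw [hy, map_zero, map_zero, norm_zero]; simp
    · have hy' : 0 < ‖y‖ := norm_pos_iff.2 hy
      have h1 : ‖(‖y‖⁻¹ • y)‖ = 1 := by
        rw [norm_smul, norm_inv, norm_norm, inv_mul_cancel₀ hy'.ne']
      have h2 := hT (‖y‖⁻¹ • y) h1.le
      rw [h1, hn, map_smul, map_smul_eq_mul, norm_inv, norm_norm] at h2
      have h3 : ν (T y) - ‖y‖ = ‖y‖ * (‖y‖⁻¹ * ν (T y) - 1) := by
        field_simp
      rw [h3, abs_mul, abs_of_pos hy', mul_comm]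
      exact mul_le_mul_of_nonneg_right h2 hy'.le
  have h1ε : 0 < 1 - ε := by linarith
  refine ⟨(1 - ε)⁻¹ • T, fun y => ?_⟩
  have h4 := abs_le.1 (hT2 y)
  have h5 : ν (((1 - ε)⁻¹ • T) y) = (1 - ε)⁻¹ * ν (T y) := by
    rw [LinearMap.smul_apply, map_smul_eq_mul, Real.norm_eq_abs, abs_of_pos (inv_pos.2 h1ε)]
  rw [h5]
  have hy0 := norm_nonneg y
  constructor
  · rw [inv_mul_eq_div, le_div_iff₀ h1ε]
    nlinarith [h4.1]
  · rw [inv_mul_eq_div, div_le_iff₀ h1ε]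
    nlinarith [h4.2, mul_nonneg hη.le hy0, mul_nonneg hε0.le hy0]

theorem renorm {X : Type*} [AddCommGroup X] [Module ℝ X] (hX : ¬ FiniteDimensional ℝ X)
    (ν : Seminorm ℝ X) (hν : ∀ x, ν x = 0 → x = 0) {W : Type*} [NormedAddCommGroup W]
    [NormedSpace ℝ W] {d : ℕ} {η : ℝ} (hη : 0 < η) (φ : W ≃ₗ[ℝ] EuclideanSpace ℝ (Fin d))
    (hφ : ∀ w, ‖φ w‖ ≤ ‖w‖ ∧ ‖w‖ ≤ (1 + η) * ‖φ w‖) :
    ∃ (ν' : Seminorm ℝ X) (J : W →ₗ[ℝ] X),
      (∀ x, ν x ≤ (1 + η) * ν' x ∧ ν' x ≤ (1 + η) * ν x) ∧ ∀ w, ν' (J w) = ‖w‖ := by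
  obtain ⟨T, hT⟩ := dvor hX ν hν d hη
  have h1 : (0 : ℝ) ≤ 1 + η := by linarith
  obtain ⟨ν', h2, h3⟩ := renorm_aux ν hη (T ∘ₗ φ.toLinearMap)
    (fun w => (hφ w).2.trans (mul_le_mul_of_nonneg_left (hT (φ w)).1 h1))
    (fun w => ((hT (φ w)).2).trans (mul_le_mul_of_nonneg_left (hφ w).1 h1))
  exact ⟨ν', T ∘ₗ φ.toLinearMap, h2, h3⟩

end P23G
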