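import Pool.Agent.Lib.P23G.Defs

/-!
# Module P23G.YSp: two-dimensional spaces that are almost Euclidean but not Euclidean

PROOF. Let `V = WithLp 1 (ℂ × ℝ)` and `Y` the submodule `{(z, η re z)}` of `V` with the induced norm, so
that the norm of `(z, η re z)` is `|z| + η |re z|` (`WithLp.prod_norm_eq_add` or similar for `p = 1`).
Non-Hilbert: `x = (1, η)`, `y = (I, 0)`: `‖x ± y‖ = √2 + η`, `‖x‖ = 1 + η`, `‖y‖ = 1` and
`2 (√2 + η)² = 4 + 4√2 η + 2η² ≠ 2 ((1 + η)² + 1) = 4 + 4η + 2η²`. The linear isomorphism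
`ψ : Y ≃ₗ[ℝ] ℂ`, `(z, η re z) ↦ z`, has `‖ψ y‖ ≤ ‖y‖ ≤ (1 + η) ‖ψ y‖`; hence
`PiLp 2 (Fin N → Y) ≃ₗ PiLp 2 (Fin N → ℂ)` coordinatewise with the same bounds (`PiLp.norm_eq_of_L2`),
and `PiLp 2 (fun _ : Fin N => ℂ)` is a finite-dimensional real inner product space:
`stdOrthonormalBasis ℝ _` gives the isometry with `EuclideanSpace ℝ (Fin d)`. (Any other choice of
`Y` is fine, only the statement matters.)
-/

set_option autoImplicit false

namespace P23G

namespace YSpAux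

/-- the complex plane, to carry the norm `|z| + |η| |re z|` -/
def YT (_η : ℝ) : Type := ℂ

noncomputable instance (η : ℝ) : AddCommGroup (YT η) := inferInstanceAs (AddCommGroup ℂ)

noncomputable instance (η : ℝ) : Module ℝ (YT η) := inferInstanceAs (Module ℝ ℂ)

/-- the identity as a linear map -/
noncomputable def toC (η : ℝ) : YT η ≃ₗ[ℝ] ℂ := LinearEquiv.refl ℝ ℂ

noncomputable instance (η : ℝ) : Norm (YT η) :=
  ⟨fun z => ‖toC η z‖ + |η| * |(toC η z).re|⟩

theorem norm_def' (η : ℝ) (z : YT η) : ‖z‖ = ‖toC η z‖ + |η| * |(toC η z).re| := rfl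

theorem core (η : ℝ) : NormedSpace.Core ℝ (YT η) where
  norm_nonneg z := by
    rw [norm_def']
    positivity
  norm_smul c z := by
    rw [norm_def', norm_def', map_smul, norm_smul, Complex.smul_re, smul_eq_mul, abs_mul,
      Real.norm_eq_abs]
    ring
  norm_triangle x y := by
    rw [norm_def', norm_def', norm_def', map_add, Complex.add_re]
    have h1 := norm_add_le (toC η x) (toC η y)
    have h2 := mul_le_mul_of_nonneg_left (abs_add_le (toC η x).re (toC η y).re) (abs_nonneg η)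
    linarith
  norm_eq_zero_iff x := by
    rw [norm_def']
    constructor
    · intro h
      have h1 : 0 ≤ |η| * |(toC η x).re| := by positivity
      have h2 : ‖toC η x‖ = 0 := le_antisymm (by linarith) (norm_nonneg _)
      exact (toC η).map_eq_zero_iff.1 (norm_eq_zero.1 h2)
    · intro h
      rw [h, map_zero]
      simp

noncomputable instance (η : ℝ) : NormedAddCommGroup (YT η) := NormedAddCommGroup.ofCore (core η)

noncomputable instance (η : ℝ) : NormedSpace ℝ (YT η) := NormedSpace.ofCore (core η)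

theorem norm_def (η : ℝ) (z : YT η) : ‖z‖ = ‖toC η z‖ + |η| * |(toC η z).re| := rfl

theorem toC_le (η : ℝ) (z : YT η) : ‖toC η z‖ ≤ ‖z‖ := by
  rw [norm_def]
  have : 0 ≤ |η| * |(toC η z).re| := by positivity
  linarith

theorem le_toC {η : ℝ} (hη : 0 < η) (z : YT η) : ‖z‖ ≤ (1 + η) * ‖toC η z‖ := by
  rw [norm_def, abs_of_pos hη]
  have := mul_le_mul_of_nonneg_left (Complex.abs_re_le_norm (toC η z)) hη.le
  linarith

theorem nonHilb {η : ℝ} (hη : 0 < η) : NonHilb (YT η) := by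
  refine ⟨(toC η).symm 1, (toC η).symm Complex.I, ?_⟩
  rw [← map_add, ← map_sub, norm_def, norm_def, norm_def, norm_def]
  simp only [LinearEquiv.apply_symm_apply]
  have h1 : ‖(1 : ℂ) + Complex.I‖ = Real.sqrt 2 := by
    rw [Complex.norm_def]
    congr 1
    simp [Complex.normSq_apply]
    norm_num
  have h2 : ‖(1 : ℂ) - Complex.I‖ = Real.sqrt 2 := by
    rw [Complex.norm_def]
    congr 1
    simp [Complex.normSq_apply]
    norm_num
  rw [h1, h2, abs_of_pos hη, Complex.norm_I]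
  simp only [Complex.add_re, Complex.sub_re, Complex.one_re, Complex.I_re, add_zero, sub_zero,
    abs_one, mul_one, norm_one, abs_zero, mul_zero]
  intro h
  have h3 : Real.sqrt 2 * Real.sqrt 2 = 2 := Real.mul_self_sqrt (by norm_num)
  have h4 : η * (Real.sqrt 2 - 1) = 0 := by nlinarith
  rcases mul_eq_zero.1 h4 with h5 | h5
  · exact hη.ne' h5
  · have h6 : Real.sqrt 2 = 1 := by linarith
    rw [h6] at h3
    norm_num at h3

end YSpAux

theorem ysp {η : ℝ} (hη : 0 < η) :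
    ∃ (Y : Type) (_ : NormedAddCommGroup Y) (_ : NormedSpace ℝ Y), NonHilb Y ∧
      ∀ N : ℕ, ∃ (d : ℕ) (φ : PiLp 2 (fun _ : Fin N => Y) ≃ₗ[ℝ] EuclideanSpace ℝ (Fin d)),
        ∀ w, ‖φ w‖ ≤ ‖w‖ ∧ ‖w‖ ≤ (1 + η) * ‖φ w‖ := by
  refine ⟨YSpAux.YT η, inferInstance, inferInstance, YSpAux.nonHilb hη, fun N => ?_⟩
  let g : PiLp 2 (fun _ : Fin N => YSpAux.YT η) ≃ₗ[ℝ] PiLp 2 (fun _ : Fin N => ℂ) :=
    (WithLp.linearEquiv 2 ℝ (Fin N → YSpAux.YT η)) ≪≫ₗ (LinearEquiv.piCongrRight fun _ => YSpAux.toC η) ≪≫ₗ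
      (WithLp.linearEquiv 2 ℝ (Fin N → ℂ)).symm
  have hg : ∀ w i, g w i = YSpAux.toC η (w i) := fun w i => rfl
  refine ⟨_, g ≪≫ₗ
    (stdOrthonormalBasis ℝ (PiLp 2 (fun _ : Fin N => ℂ))).repr.toLinearEquiv, fun w => ?_⟩
  have e : ‖(g ≪≫ₗ (stdOrthonormalBasis ℝ (PiLp 2 (fun _ : Fin N => ℂ))).repr.toLinearEquiv) w‖ =
      ‖g w‖ := by
    rw [LinearEquiv.trans_apply]
    exact (stdOrthonormalBasis ℝ (PiLp 2 (fun _ : Fin N => ℂ))).repr.norm_map (g w)
  rw [e, PiLp.norm_eq_of_L2, PiLp.norm_eq_of_L2]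
  constructor
  · apply Real.sqrt_le_sqrt
    apply Finset.sum_le_sum
    intro i _
    rw [hg]
    exact pow_le_pow_left₀ (norm_nonneg _) (YSpAux.toC_le η (w i)) 2
  · have h1 : (1 + η) * Real.sqrt (∑ i, ‖g w i‖ ^ 2) =
        Real.sqrt (∑ i, ((1 + η) * ‖g w i‖) ^ 2) := by
      have : ∑ i, ((1 + η) * ‖g w i‖) ^ 2 = (1 + η) ^ 2 * ∑ i, ‖g w i‖ ^ 2 := by
        rw [Finset.mul_sum]
        exact Finset.sum_congr rfl fun i _ => by ring
      rw [this, Real.sqrt_mul (by positivity), Real.sqrt_sq (by positivity)]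
    rw [h1]
    apply Real.sqrt_le_sqrt
    apply Finset.sum_le_sum
    intro i _
    rw [hg]
    exact pow_le_pow_left₀ (norm_nonneg _) (YSpAux.le_toC hη (w i)) 2

end P23G
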