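import Pool.Agent.Lib.P23G.Space
import Pool.Agent.Lib.P23G.Cpt
import Pool.Agent.Lib.P23G.YSp
import Pool.Agent.Lib.P23G.Renorm

/-!
# Generic norms: every finite subset of `ℓ₂` embeds
-/

set_option autoImplicit false

open Filter Topology Set Metric
open scoped InnerProductSpace RealInnerProductSpace

namespace P23G

variable {X : Type*} [NormedAddCommGroup X] [NormedSpace ℝ X]

/-- There is a linear map with prescribed norms at the vectors `z i`. -/
def SolX (ν : EqNorm X) {n k : ℕ} (z : Fin k → EuclideanSpace ℝ (Fin n)) : Prop :=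
  ∃ S : EuclideanSpace ℝ (Fin n) →ₗ[ℝ] X, ∀ i, ν.nrm (S (z i)) = ‖z i‖

theorem sol_near {W : Type*} [NormedAddCommGroup W] [NormedSpace ℝ W] {δ r : ℝ}
    (hr2 : Real.exp (2 * r) ≤ 1 + δ) (ν₁ ν : EqNorm X) (hd : dist ν ν₁ ≤ r) (J : W →ₗ[ℝ] X)
    (hJ : ∀ w, ν₁.nrm (J w) = ‖w‖) {n k : ℕ} {z : Fin k → EuclideanSpace ℝ (Fin n)}
    (hz : SolW W δ z) : SolX ν z := by
  let e : NNReal := ⟨Real.exp r, (Real.exp_pos r).le⟩
  let μ : Seminorm ℝ W := e • (ν.nrm.comp J)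
  have hμ : ∀ w, μ w = Real.exp r * ν.nrm (J w) := fun w => rfl
  obtain ⟨S, hS⟩ := hz μ (fun w => by
    rw [hμ]
    have h1 := ν₁.le_exp_mul ν (r := r) (by rwa [dist_comm]) (J w)
    have h2 := ν.le_exp_mul ν₁ hd (J w)
    rw [hJ] at h1 h2
    refine ⟨h1, ?_⟩
    calc Real.exp r * ν.nrm (J w) ≤ Real.exp r * (Real.exp r * ‖w‖) := by gcongr
      _ = Real.exp (2 * r) * ‖w‖ := by rw [two_mul, Real.exp_add]; ring
      _ ≤ (1 + δ) * ‖w‖ := by gcongr)
  refine ⟨Real.exp r • (J ∘ₗ S), fun i => ?_⟩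
  rw [← hS i, hμ, LinearMap.smul_apply, map_smul_eq_mul, Real.norm_eq_abs,
    abs_of_pos (Real.exp_pos r)]
  rfl

theorem dense_interior (hX : ¬ FiniteDimensional ℝ X) {n k : ℕ}
    {K : Set (Fin k → EuclideanSpace ℝ (Fin n))} (hK : IsCompact K) (hKT : K ⊆ Tup n k) :
    Dense (interior {ν : EqNorm X | ∀ z ∈ K, SolX ν z}) := by
  rw [Metric.dense_iff]
  intro ν₀ ε hε
  have hη : 0 < Real.exp (ε / 2) - 1 := by
    have := Real.add_one_lt_exp (x := ε / 2) (by positivity)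
    linarith
  obtain ⟨Y, _, _, hY, hφ⟩ := ysp hη
  obtain ⟨N, δ, hδ, hsol⟩ := cpt hY hK hKT
  obtain ⟨d, φ, hφ⟩ := hφ N
  obtain ⟨ν', J, h1, h2⟩ := renorm hX ν₀.nrm (fun x hx => ν₀.eq_zero hx) hη φ hφ
  have he : 1 + (Real.exp (ε / 2) - 1) = Real.exp (ε / 2) := by ring
  rw [he] at h1
  let ν₁ : EqNorm X := ⟨ν', by
    obtain ⟨c, C, hc, h⟩ := ν₀.bd
    refine ⟨(Real.exp (ε / 2))⁻¹ * c, Real.exp (ε / 2) * C, by positivity, fun x => ⟨?_, ?_⟩⟩
    · rw [mul_assoc, inv_mul_le_iff₀ (Real.exp_pos _)]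
      exact (h x).1.trans (h1 x).1
    · refine (h1 x).2.trans ?_
      rw [mul_assoc]
      exact mul_le_mul_of_nonneg_left (h x).2 (Real.exp_pos _).le⟩
  have hd : dist ν₁ ν₀ ≤ ε / 2 :=
    EqNorm.dist_le _ _ (by positivity) fun x => ⟨(h1 x).2, (h1 x).1⟩
  refine ⟨ν₁, ?_, ?_⟩
  · rw [mem_ball]
    linarith
  · rw [mem_interior_iff_mem_nhds]
    have hr : 0 < Real.log (1 + δ) / 2 := by
      have := Real.log_pos (x := 1 + δ) (by linarith)
      positivity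
    refine mem_of_superset (Metric.ball_mem_nhds ν₁ hr) ?_
    intro ν hν z hz
    rw [mem_ball] at hν
    refine sol_near (δ := δ) (r := Real.log (1 + δ) / 2) ?_ ν₁ ν hν.le J h2 (hsol z hz)
    rw [mul_div_cancel₀ _ (two_ne_zero), Real.exp_log (by linarith)]

/-- compact sets which exhaust `Tup n k` -/
def Kc (n k m : ℕ) : Set (Fin k → EuclideanSpace ℝ (Fin n)) :=
  {z | (∀ i, ‖z i‖ ≤ m ∧ 1 / ((m : ℝ) + 1) ≤ ‖z i‖) ∧
    ∀ i j, i ≠ j → |⟪z i, z j⟫_ℝ| ≤ (1 - 1 / ((m : ℝ) + 1)) * (‖z i‖ * ‖z j‖)}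

theorem isCompact_Kc (n k m : ℕ) : IsCompact (Kc n k m) := by
  apply Metric.isCompact_of_isClosed_isBounded
  · have h1 : Kc n k m = (⋂ i : Fin k, {z | ‖z i‖ ≤ m} ∩ {z | 1 / ((m : ℝ) + 1) ≤ ‖z i‖}) ∩
        ⋂ i : Fin k, ⋂ j : Fin k, {z | i ≠ j →
          |⟪z i, z j⟫_ℝ| ≤ (1 - 1 / ((m : ℝ) + 1)) * (‖z i‖ * ‖z j‖)} := by
      ext z
      simp [Kc]
    rw [h1]
    refine IsClosed.inter (isClosed_iInter fun i => IsClosed.inter ?_ ?_)
      (isClosed_iInter fun i => isClosed_iInter fun j => ?_)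
    · exact isClosed_le (by fun_prop) continuous_const
    · exact isClosed_le continuous_const (by fun_prop)
    · by_cases hij : i = j
      · simp [hij]
      · simp only [hij, ne_eq, not_false_eq_true, forall_const]
        refine isClosed_le ?_ (by fun_prop)
        exact (Continuous.inner (continuous_apply i) (continuous_apply j)).abs
  · apply (Metric.isBounded_closedBall (x := (0 : Fin k → EuclideanSpace ℝ (Fin n)))
      (r := (m : ℝ))).subset
    intro z hz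
    rw [mem_closedBall_zero_iff, pi_norm_le_iff_of_nonneg (Nat.cast_nonneg m)]
    exact fun i => (hz.1 i).1

theorem Kc_subset (n k m : ℕ) : Kc n k m ⊆ Tup n k := by
  intro z hz
  have hm : (0 : ℝ) < 1 / ((m : ℝ) + 1) := by positivity
  have hpos : ∀ i, 0 < ‖z i‖ := fun i => hm.trans_le (hz.1 i).2
  refine ⟨fun i => norm_pos_iff.1 (hpos i), fun i j hij c hc => ?_⟩
  have h1 := hz.2 i j hij
  have h2 : |⟪z i, z j⟫_ℝ| = ‖z i‖ * ‖z j‖ := by
    rw [hc, real_inner_smul_left, real_inner_self_eq_norm_sq, norm_smul, abs_mul,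
      abs_of_nonneg (sq_nonneg ‖z j‖), Real.norm_eq_abs]
    ring
  rw [h2] at h1
  have h3 : 0 < ‖z i‖ * ‖z j‖ := mul_pos (hpos i) (hpos j)
  nlinarith

theorem exists_mem_Kc {n k : ℕ} {z : Fin k → EuclideanSpace ℝ (Fin n)} (hz : z ∈ Tup n k) :
    ∃ m, z ∈ Kc n k m := by
  have hcs : ∀ i j, i ≠ j → |⟪z i, z j⟫_ℝ| < ‖z i‖ * ‖z j‖ := by
    intro i j hij
    refine lt_of_le_of_ne (abs_real_inner_le_norm _ _) ?_
    intro h
    have h1 := (norm_inner_eq_norm_iff (𝕜 := ℝ) (hz.1 j) (hz.1 i)).1 (by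
      rw [Real.norm_eq_abs, real_inner_comm, h, mul_comm])
    obtain ⟨c, _, hc⟩ := h1
    exact hz.2 i j hij c hc
  have hlim : Tendsto (fun m : ℕ => 1 / ((m : ℝ) + 1)) atTop (𝓝 0) :=
    tendsto_one_div_add_atTop_nhds_zero_nat
  have e1 : ∀ᶠ m : ℕ in atTop, ∀ i, ‖z i‖ ≤ m ∧ 1 / ((m : ℝ) + 1) ≤ ‖z i‖ := by
    rw [Filter.eventually_all]
    intro i
    have h1 : ∀ᶠ m : ℕ in atTop, ‖z i‖ ≤ m := by
      obtain ⟨M, hM⟩ := exists_nat_ge ‖z i‖
      filter_upwards [eventually_ge_atTop M] with m hm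
      exact hM.trans (by exact_mod_cast hm)
    have h2 := hlim.eventually (ge_mem_nhds (norm_pos_iff.2 (hz.1 i)))
    exact h1.and h2
  have e2 : ∀ᶠ m : ℕ in atTop, ∀ i j, i ≠ j →
      |⟪z i, z j⟫_ℝ| ≤ (1 - 1 / ((m : ℝ) + 1)) * (‖z i‖ * ‖z j‖) := by
    rw [Filter.eventually_all]
    intro i
    rw [Filter.eventually_all]
    intro j
    by_cases hij : i = j
    · exact Eventually.of_forall fun m h => absurd hij h
    · have h1 : Tendsto (fun m : ℕ => (1 - 1 / ((m : ℝ) + 1)) * (‖z i‖ * ‖z j‖)) atTop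
          (𝓝 ((1 - 0) * (‖z i‖ * ‖z j‖))) := (tendsto_const_nhds.sub hlim).mul_const _
      rw [sub_zero, one_mul] at h1
      have h2 := h1.eventually (lt_mem_nhds (hcs i j hij))
      exact h2.mono fun m hm _ => hm.le
  obtain ⟨m, h1, h2⟩ := (e1.and e2).exists
  exact ⟨m, h1, h2⟩

theorem residual_sol (hX : ¬ FiniteDimensional ℝ X) :
    {ν : EqNorm X | ∀ (n k : ℕ) (z : Fin k → EuclideanSpace ℝ (Fin n)), z ∈ Tup n k →
      SolX ν z} ∈ residual (EqNorm X) := by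
  have h : (⋂ n : ℕ, ⋂ k : ℕ, ⋂ m : ℕ,
      interior {ν : EqNorm X | ∀ z ∈ Kc n k m, SolX ν z}) ∈ residual (EqNorm X) := by
    rw [countable_iInter_mem]
    intro n
    rw [countable_iInter_mem]
    intro k
    rw [countable_iInter_mem]
    intro m
    exact residual_of_dense_open isOpen_interior
      (dense_interior hX (isCompact_Kc n k m) (Kc_subset n k m))
  filter_upwards [h] with ν hν n k z hz
  obtain ⟨m, hm⟩ := exists_mem_Kc hz
  simp only [mem_iInter] at hν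
  exact interior_subset (hν n k m) z hm

/-- a linear map with prescribed norms on a finite set of vectors, from one tuple -/
theorem exists_tup (X : Type*) [NormedAddCommGroup X] [NormedSpace ℝ X] {n : ℕ}
    {V : Set (EuclideanSpace ℝ (Fin n))} (hV : V.Finite) :
    ∃ (k : ℕ) (z : Fin k → EuclideanSpace ℝ (Fin n)), z ∈ Tup n k ∧ ∀ ν : EqNorm X, SolX ν z →
      ∃ S : EuclideanSpace ℝ (Fin n) →ₗ[ℝ] X, ∀ v ∈ V, ν.nrm (S v) = ‖v‖ := by
  classical
  let rep : EuclideanSpace ℝ (Fin n) → EuclideanSpace ℝ (Fin n) := fun v =>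
    if h : v = 0 then 0 else (Projectivization.mk ℝ v h).rep
  let D : Finset (EuclideanSpace ℝ (Fin n)) := (hV.toFinset.image rep).filter fun v => v ≠ 0
  have h0 : ∀ v ∈ D, v ≠ 0 := fun v hv => (Finset.mem_filter.1 hv).2
  have hrep : ∀ v ∈ D, ∃ w : EuclideanSpace ℝ (Fin n), ∃ hw : w ≠ 0, w ∈ V ∧
      v = (Projectivization.mk ℝ w hw).rep := by
    intro v hv
    obtain ⟨hv1, hv2⟩ := Finset.mem_filter.1 hv
    obtain ⟨w, hw, hwv⟩ := Finset.mem_image.1 hv1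
    by_cases h : w = 0
    · simp only [rep, h, dif_pos] at hwv
      exact absurd hwv.symm hv2
    · refine ⟨w, h, hV.mem_toFinset.1 hw, ?_⟩
      rw [← hwv]
      simp only [rep, h, dif_neg, not_false_eq_true]
  have hD : ∀ v ∈ D, ∀ w ∈ D, v ≠ w → ∀ c : ℝ, v ≠ c • w := by
    intro v hv w hw hvw c hc
    apply hvw
    obtain ⟨v', hv', _, rfl⟩ := hrep v hv
    obtain ⟨w', hw', _, rfl⟩ := hrep w hw
    congr 1
    rw [← Projectivization.mk_rep (Projectivization.mk ℝ v' hv'),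
      ← Projectivization.mk_rep (Projectivization.mk ℝ w' hw'), Projectivization.mk_eq_mk_iff']
    exact ⟨c, hc.symm⟩
  refine ⟨D.card, fun i => (D.equivFin.symm i : EuclideanSpace ℝ (Fin n)),
    ⟨fun i => h0 _ (D.equivFin.symm i).2, fun i j hij c => hD _ (D.equivFin.symm i).2 _
      (D.equivFin.symm j).2 (fun h => hij (D.equivFin.symm.injective (Subtype.ext h))) c⟩, ?_⟩
  rintro ν ⟨S, hS⟩
  have hS' : ∀ d ∈ D, ν.nrm (S d) = ‖d‖ := by
    intro d hd
    have h1 := hS (D.equivFin ⟨d, hd⟩)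
    simp only [Equiv.symm_apply_apply] at h1
    exact h1
  refine ⟨S, fun v hv => ?_⟩
  by_cases hv0 : v = 0
  · rw [hv0, map_zero, map_zero, norm_zero]
  · obtain ⟨c, hc⟩ := Projectivization.exists_smul_eq_mk_rep ℝ v hv0
    have hmem : (Projectivization.mk ℝ v hv0).rep ∈ D := by
      rw [Finset.mem_filter, Finset.mem_image]
      refine ⟨⟨v, hV.mem_toFinset.2 hv, ?_⟩, Projectivization.rep_nonzero _⟩
      simp only [rep, hv0, dif_neg, not_false_eq_true]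
    have h1 := hS' _ hmem
    rw [← hc, Units.smul_def, map_smul, map_smul_eq_mul, norm_smul] at h1
    exact mul_left_cancel₀ (norm_ne_zero_iff.2 c.ne_zero) h1

theorem exists_tup_isom (X : Type*) [NormedAddCommGroup X] [NormedSpace ℝ X]
    {H : Type*} [NormedAddCommGroup H] [InnerProductSpace ℝ H] (A : Set H) (hA : A.Finite) :
    ∃ (n k : ℕ) (z : Fin k → EuclideanSpace ℝ (Fin n)), z ∈ Tup n k ∧ ∀ ν : EqNorm X, SolX ν z →
      ∃ f : A → X, ∀ a b : A, ν.nrm (f a - f b) = dist a b := by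
  classical
  let W : Submodule ℝ H := Submodule.span ℝ A
  have : FiniteDimensional ℝ W := FiniteDimensional.span_of_finite ℝ hA
  let ι : A → W := fun a => ⟨a, Submodule.subset_span a.2⟩
  have : Finite A := hA
  let e := (stdOrthonormalBasis ℝ W).repr
  let V : Set (EuclideanSpace ℝ (Fin (Module.finrank ℝ W))) :=
    Set.range fun q : A × A => e (ι q.1 - ι q.2)
  have hV : V.Finite := Set.finite_range _
  obtain ⟨k, z, hz, h⟩ := exists_tup X hV
  refine ⟨_, k, z, hz, fun ν hν => ?_⟩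
  obtain ⟨S, hS⟩ := h ν hν
  refine ⟨fun a => S (e (ι a)), fun a b => ?_⟩
  rw [← map_sub, ← map_sub, hS _ ⟨(a, b), rfl⟩, e.norm_map, Subtype.dist_eq, dist_eq_norm]
  rfl

/-- **Main theorem.** -/
theorem main (hX : ¬ FiniteDimensional ℝ X) :
    (∀ A : Set (lp (fun _ : ℕ => ℝ) 2), A.Finite → Dense (interior
      {ν : EqNorm X | ∃ f : A → X, ∀ a b : A, ν.nrm (f a - f b) = dist a b})) ∧
    ∃ G : Set (EqNorm X), IsGδ G ∧ Dense G ∧ ∀ ν ∈ G,
      (∀ A : Set (lp (fun _ : ℕ => ℝ) 2), A.Finite →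
        ∃ f : A → X, ∀ a b : A, ν.nrm (f a - f b) = dist a b) ∧
      ∀ (n : ℕ) (V : Set (EuclideanSpace ℝ (Fin n))), V.Finite →
        ∃ S : EuclideanSpace ℝ (Fin n) →ₗ[ℝ] X, ∀ v ∈ V, ν.nrm (S v) = ‖v‖ := by
  constructor
  · intro A hA
    obtain ⟨n, k, z, hz, h⟩ := exists_tup_isom X A hA
    refine (dense_interior hX (K := {z}) isCompact_singleton
      (Set.singleton_subset_iff.2 hz)).mono (interior_mono ?_)
    intro ν hν
    exact h ν (hν z rfl)
  · obtain ⟨G, hG, hGδ, hd⟩ := mem_residual.1 (residual_sol hX)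
    refine ⟨G, hGδ, hd, fun ν hν => ⟨fun A hA => ?_, fun n V hV => ?_⟩⟩
    · obtain ⟨n, k, z, hz, h⟩ := exists_tup_isom X A hA
      exact h ν (hG hν n k z hz)
    · obtain ⟨k, z, hz, h⟩ := exists_tup X hV
      exact h ν (hG hν n k z hz)

end P23G
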