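import Mathlib

/-!
# The metric space of all equivalent norms of a normed space

`EqNorm X`: the norms `ν` on `X` with `c ‖x‖ ≤ ν x ≤ C ‖x‖` for some `c > 0` and `C`. The distance of
`ν` and `μ` is the supremum of `|log (ν x) - log (μ x)|`.
-/

set_option autoImplicit false

open Filter Topology

namespace P23G

/-- A norm on `X` equivalent to the given norm. -/
structure EqNorm (X : Type*) [NormedAddCommGroup X] [NormedSpace ℝ X] where
  /-- the norm -/
  nrm : Seminorm ℝ X
  /-- it is equivalent to the given norm -/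
  bd : ∃ c C : ℝ, 0 < c ∧ ∀ x, c * ‖x‖ ≤ nrm x ∧ nrm x ≤ C * ‖x‖

variable {X : Type*} [NormedAddCommGroup X] [NormedSpace ℝ X]

namespace EqNorm

theorem ext' {ν μ : EqNorm X} (h : ∀ x, ν.nrm x = μ.nrm x) : ν = μ := by
  cases ν
  cases μ
  congr 1
  exact Seminorm.ext h

theorem pos (ν : EqNorm X) {x : X} (hx : x ≠ 0) : 0 < ν.nrm x := by
  obtain ⟨c, C, hc, h⟩ := ν.bd
  have h1 := (h x).1
  have h2 : 0 < c * ‖x‖ := mul_pos hc (norm_pos_iff.2 hx)
  linarith

theorem eq_zero (ν : EqNorm X) {x : X} (hx : ν.nrm x = 0) : x = 0 := by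
  by_contra h
  exact (ν.pos h).ne' hx

/-- `log (ν x / ‖x‖)` -/
noncomputable def lg (ν : EqNorm X) (x : X) : ℝ := Real.log (ν.nrm x) - Real.log ‖x‖

theorem lg_zero (ν : EqNorm X) : ν.lg 0 = 0 := by simp [lg]

theorem nrm_eq (ν : EqNorm X) (x : X) : ν.nrm x = ‖x‖ * Real.exp (ν.lg x) := by
  by_cases hx : x = 0
  · simp [hx]
  · have h1 : 0 < ‖x‖ := norm_pos_iff.2 hx
    rw [lg, Real.exp_sub, Real.exp_log (ν.pos hx), Real.exp_log h1]
    field_simp

theorem memlp (ν : EqNorm X) : Memℓp (E := fun _ : X => ℝ) ν.lg ⊤ := by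
  apply memℓp_infty
  obtain ⟨c, C, hc, h⟩ := ν.bd
  refine ⟨max |Real.log c| |Real.log C|, ?_⟩
  rintro _ ⟨x, rfl⟩
  show ‖ν.lg x‖ ≤ _
  by_cases hx : x = 0
  · rw [hx, lg_zero, norm_zero]
    exact le_max_of_le_left (abs_nonneg _)
  · have h1 : 0 < ‖x‖ := norm_pos_iff.2 hx
    obtain ⟨h2, h3⟩ := h x
    have hC : 0 < C := by
      by_contra hC
      have : C * ‖x‖ ≤ 0 := mul_nonpos_of_nonpos_of_nonneg (not_lt.1 hC) h1.le
      have := ν.pos hx
      linarith
    have h4 : Real.log c ≤ ν.lg x := by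
      rw [lg, le_sub_iff_add_le, ← Real.log_mul hc.ne' h1.ne']
      exact Real.log_le_log (by positivity) h2
    have h5 : ν.lg x ≤ Real.log C := by
      rw [lg, sub_le_iff_le_add, ← Real.log_mul hC.ne' h1.ne']
      exact Real.log_le_log (ν.pos hx) h3
    rw [Real.norm_eq_abs]
    exact abs_le_max_abs_abs h4 h5

/-- The logarithm of the norm as a bounded function. -/
noncomputable def emb (ν : EqNorm X) : lp (fun _ : X => ℝ) ⊤ := ⟨ν.lg, ν.memlp⟩

theorem emb_apply (ν : EqNorm X) (x : X) : ν.emb x = ν.lg x := rfl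

theorem emb_injective : Function.Injective (emb : EqNorm X → lp (fun _ : X => ℝ) ⊤) := by
  intro ν μ h
  apply ext'
  intro x
  have h1 : ν.emb x = μ.emb x := by rw [h]
  rw [emb_apply, emb_apply] at h1
  rw [nrm_eq, nrm_eq, h1]

/-- The metric. -/
noncomputable instance : MetricSpace (EqNorm X) :=
  MetricSpace.induced emb emb_injective inferInstance

theorem isometry_emb : Isometry (emb : EqNorm X → lp (fun _ : X => ℝ) ⊤) :=
  Isometry.of_dist_eq fun _ _ => rfl

theorem dist_def (ν μ : EqNorm X) : dist ν μ = ‖ν.emb - μ.emb‖ := by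
  rw [← dist_eq_norm]
  rfl

/-- The distance is the supremum of `|log (ν x) - log (μ x)|`. -/
theorem dist_eq (ν μ : EqNorm X) :
    dist ν μ = ⨆ x : X, |Real.log (ν.nrm x) - Real.log (μ.nrm x)| := by
  rw [dist_def, lp.norm_eq_ciSup]
  congr 1
  ext x
  rw [lp.coeFn_sub, Pi.sub_apply, emb_apply, emb_apply, Real.norm_eq_abs, lg, lg]
  congr 1
  ring

theorem abs_lg_sub_le (ν μ : EqNorm X) (x : X) : |ν.lg x - μ.lg x| ≤ dist ν μ := by
  rw [dist_def]
  have h := lp.norm_apply_le_norm ENNReal.top_ne_zero (ν.emb - μ.emb) x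
  rwa [lp.coeFn_sub, Pi.sub_apply, emb_apply, emb_apply, Real.norm_eq_abs] at h

theorem le_exp_mul (ν μ : EqNorm X) {r : ℝ} (hr : dist ν μ ≤ r) (x : X) :
    ν.nrm x ≤ Real.exp r * μ.nrm x := by
  rw [nrm_eq, nrm_eq]
  have h1 := (abs_le.1 ((abs_lg_sub_le ν μ x).trans hr)).2
  have h2 : Real.exp (ν.lg x) ≤ Real.exp r * Real.exp (μ.lg x) := by
    rw [← Real.exp_add]
    exact Real.exp_le_exp.2 (by linarith)
  calc ‖x‖ * Real.exp (ν.lg x) ≤ ‖x‖ * (Real.exp r * Real.exp (μ.lg x)) := by gcongr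
    _ = _ := by ring

theorem dist_le (ν μ : EqNorm X) {r : ℝ} (hr : 0 ≤ r)
    (h : ∀ x, ν.nrm x ≤ Real.exp r * μ.nrm x ∧ μ.nrm x ≤ Real.exp r * ν.nrm x) :
    dist ν μ ≤ r := by
  rw [dist_def]
  apply lp.norm_le_of_forall_le hr
  intro x
  rw [lp.coeFn_sub, Pi.sub_apply, emb_apply, emb_apply, Real.norm_eq_abs]
  by_cases hx : x = 0
  · rw [hx, lg_zero, lg_zero, sub_zero, abs_zero]
    exact hr
  · have h1 := ν.pos hx
    have h2 := μ.pos hx
    obtain ⟨h3, h4⟩ := h x
    have h5 := Real.log_le_log h1 h3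
    have h6 := Real.log_le_log h2 h4
    rw [Real.log_mul (Real.exp_pos r).ne' h2.ne', Real.log_exp] at h5
    rw [Real.log_mul (Real.exp_pos r).ne' h1.ne', Real.log_exp] at h6
    rw [lg, lg, abs_le]
    constructor <;> linarith

theorem isClosed_range : IsClosed (Set.range (emb : EqNorm X → lp (fun _ : X => ℝ) ⊤)) := by
  rw [← isSeqClosed_iff_isClosed]
  intro s φ hs hφ
  choose ν hν using hs
  have hpt : ∀ x, Tendsto (fun n => (ν n).lg x) atTop (𝓝 (φ x)) := by
    intro x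
    rw [tendsto_iff_norm_sub_tendsto_zero] at hφ ⊢
    refine squeeze_zero (fun n => norm_nonneg _) (fun n => ?_) hφ
    have h := lp.norm_apply_le_norm ENNReal.top_ne_zero (s n - φ) x
    rw [lp.coeFn_sub, Pi.sub_apply, ← hν n, emb_apply] at h
    rw [← hν n]
    exact h
  have hlim : ∀ x, Tendsto (fun n => (ν n).nrm x) atTop (𝓝 (‖x‖ * Real.exp (φ x))) := by
    intro x
    have h1 : (fun n => (ν n).nrm x) = fun n => ‖x‖ * Real.exp ((ν n).lg x) := by
      funext n
      exact nrm_eq _ _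
    rw [h1]
    exact ((Real.continuous_exp.tendsto _).comp (hpt x)).const_mul _
  have h0 : φ 0 = 0 := by
    have h1 := hpt 0
    simp only [lg_zero] at h1
    exact tendsto_nhds_unique h1 tendsto_const_nhds |>.symm ▸ rfl
  let q : Seminorm ℝ X := Seminorm.of (fun x => ‖x‖ * Real.exp (φ x))
    (fun x y => le_of_tendsto_of_tendsto' (hlim (x + y)) ((hlim x).add (hlim y))
      fun n => map_add_le_add _ _ _)
    (fun a x => tendsto_nhds_unique (hlim (a • x)) (by
      have h1 := (hlim x).const_mul ‖a‖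
      have h2 : (fun n => (ν n).nrm (a • x)) = fun n => ‖a‖ * (ν n).nrm x := by
        funext n
        exact map_smul_eq_mul _ _ _
      rw [h2]
      exact h1))
  have hq : ∀ x, q x = ‖x‖ * Real.exp (φ x) := fun x => rfl
  have hb : ∀ x, |φ x| ≤ ‖φ‖ := fun x => lp.norm_apply_le_norm ENNReal.top_ne_zero φ x
  refine ⟨⟨q, Real.exp (-‖φ‖), Real.exp ‖φ‖, Real.exp_pos _, fun x => ?_⟩, ?_⟩
  · have h1 := abs_le.1 (hb x)
    have h2 := Real.exp_le_exp.2 h1.1
    have h3 := Real.exp_le_exp.2 h1.2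
    have h4 := norm_nonneg x
    rw [hq]
    constructor
    · rw [mul_comm]
      gcongr
    · rw [mul_comm]
      gcongr
  · apply lp.ext
    funext x
    show Real.log (q x) - Real.log ‖x‖ = φ x
    by_cases hx : x = 0
    · rw [hx, h0]
      simp [hq]
    · have h1 : 0 < ‖x‖ := norm_pos_iff.2 hx
      rw [hq, Real.log_mul h1.ne' (Real.exp_pos _).ne', Real.log_exp]
      ring

instance : CompleteSpace (EqNorm X) := by
  rw [completeSpace_iff_isComplete_range isometry_emb.isUniformInducing]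
  exact isClosed_range.isComplete

end EqNorm

end P23G
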